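import Mathlib
import Pool.Agent.V1155.ConnCert
import Pool.Agent.V1155.ConnKey

/-!
A connected finite simplicial complex (a hexagon with a full triangle attached along every second
edge) for which the largest eigenvalue of the inverse connection matrix is a multiple eigenvalue.
-/

namespace Pool.Agent.Results.MP_5fc97f_co.TopDouble

open Pool.Agent.V1155

/-- `G` is a finite abstract simplicial complex: all members are nonempty, and every nonempty subset
of a member is a member. -/
def IsComplex {V : Type} [DecidableEq V] (G : Finset (Finset V)) : Prop :=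
  (∀ s ∈ G, s.Nonempty) ∧ ∀ s ∈ G, ∀ t : Finset V, t ⊆ s → t.Nonempty → t ∈ G

/-- The graph on the simplices of `G` in which two different simplices are adjacent when they
intersect. -/
def meetGraph {V : Type} [DecidableEq V] (G : Finset (Finset V)) : SimpleGraph G :=
  SimpleGraph.fromRel fun x y => (x.1 ∩ y.1).Nonempty

/-- The connection matrix of `G`. -/
noncomputable def connMatrix {V : Type} [DecidableEq V] (G : Finset (Finset V)) :
    Matrix G G ℝ :=
  fun x y => if (x.1 ∩ y.1).Nonempty then 1 else 0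

/-- The square matrix `g` has a real eigenvalue `t` that bounds the absolute value of each of its real
eigenvalues (so `t` is the largest eigenvalue) and whose eigenspace has dimension at least two. -/
def TopMultiple {ι : Type} [Fintype ι] [DecidableEq ι] (g : Matrix ι ι ℝ) : Prop :=
  ∃ t : ℝ, (∀ μ : ℝ, Module.End.HasEigenvalue (Matrix.toLin' g) μ → |μ| ≤ t) ∧
    2 ≤ Module.finrank ℝ (Module.End.eigenspace (Matrix.toLin' g) t)

/-- the complex -/
def cG : Finset (Finset (Fin 9)) := Finset.univ.image cmF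

theorem mem_cG (i : Fin 24) : cmF i ∈ cG := Finset.mem_image_of_mem _ (Finset.mem_univ i)

/-- indexing of the simplices -/
noncomputable def eG : Fin 24 ≃ cG :=
  Equiv.ofBijective (fun i => ⟨cmF i, mem_cG i⟩)
    ⟨fun i j h => cm_inj i j (congrArg Subtype.val h), fun x => by
      obtain ⟨x, hx⟩ := x
      obtain ⟨i, -, hi⟩ := Finset.mem_image.mp hx
      exact ⟨i, Subtype.ext hi⟩⟩

theorem eG_val (i : Fin 24) : (eG i).1 = cmF i := rfl

theorem cG_complex : IsComplex cG := by
  constructor
  · intro s hs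
    obtain ⟨i, -, rfl⟩ := Finset.mem_image.mp hs
    exact (cm_complex i).1
  · intro s hs t hts ht
    obtain ⟨i, -, rfl⟩ := Finset.mem_image.mp hs
    obtain ⟨j, rfl⟩ := (cm_complex i).2 t (Finset.mem_powerset.mpr hts) ht
    exact mem_cG j

/-- a step towards the edge with index nine -/
def nx (i : Fin 24) : Fin 24 :=
  ⟨([9, 10, 11, 9, 10, 11, 15, 16, 17, 9, 12, 14, 9, 10, 9, 9, 10, 11, 9, 10, 11, 9, 10, 11].getD
    i.val 0) % 24, Nat.mod_lt _ (by norm_num)⟩

theorem nx_meet : ∀ i : Fin 24, (cmF i ∩ cmF (nx i)).Nonempty := by decide +kernel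

theorem nx_iter : ∀ i : Fin 24, nx (nx (nx (nx i))) = 9 := by decide +kernel

theorem cG_connected : (meetGraph cG).Connected := by
  have hstep : ∀ i : Fin 24, (meetGraph cG).Reachable (eG i) (eG (nx i)) := by
    intro i
    by_cases h : eG i = eG (nx i)
    · rw [← h]
    · refine SimpleGraph.Adj.reachable ?_
      rw [meetGraph, SimpleGraph.fromRel_adj]
      exact ⟨h, Or.inl (nx_meet i)⟩
  have h9 : ∀ i : Fin 24, (meetGraph cG).Reachable (eG i) (eG 9) := by
    intro i
    have := ((hstep i).trans (hstep (nx i))).trans ((hstep (nx (nx i))).trans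
      (hstep (nx (nx (nx i)))))
    rwa [nx_iter i] at this
  have : Nonempty cG := ⟨eG 9⟩
  refine SimpleGraph.Connected.mk ?_
  intro x y
  obtain ⟨i, rfl⟩ := eG.surjective x
  obtain ⟨j, rfl⟩ := eG.surjective y
  exact (h9 i).trans (h9 j).symm

/-- the explicit inverse -/
noncomputable def gG : Matrix cG cG ℝ := fun x y => (lk cmG (eG.symm x) (eG.symm y) : ℝ)

theorem conn_mul : connMatrix cG * gG = 1 := by
  refine Matrix.ext fun x y => ?_
  obtain ⟨i, rfl⟩ := eG.surjective x
  obtain ⟨j, rfl⟩ := eG.surjective y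
  rw [Matrix.mul_apply, ← eG.sum_comp]
  have h := cm_inv i j
  have h2 : ((∑ k : Fin 24, (if (cmF i ∩ cmF k).Nonempty then (1 : ℤ) else 0) * lk cmG k j : ℤ) : ℝ)
      = ((if i = j then 1 else 0 : ℤ) : ℝ) := by rw [h]
  push_cast at h2
  rw [Matrix.one_apply]
  simp only [eG.injective.eq_iff]
  rw [← h2]
  refine Finset.sum_congr rfl fun k _ => ?_
  simp only [connMatrix, gG, eG_val, Equiv.symm_apply_apply]
  by_cases hk : (cmF i ∩ cmF k).Nonempty
  · simp only [hk, if_true]
  · simp only [hk, if_false]

theorem inv_eq : (connMatrix cG)⁻¹ = gG := Matrix.inv_eq_right_inv conn_mul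

theorem qf_gG (x : cG → ℝ) : qf gG x
    = ∑ i : Fin 24, ∑ j : Fin 24, (lk cmG i j : ℝ) * x (eG i) * x (eG j) := by
  unfold qf
  rw [← eG.sum_comp]
  refine Finset.sum_congr rfl fun i _ => ?_
  rw [← eG.sum_comp]
  refine Finset.sum_congr rfl fun j _ => ?_
  simp only [gG, Equiv.symm_apply_apply]

theorem sq_gG (x : cG → ℝ) : ∑ i, x i * x i = ∑ i : Fin 24, x (eG i) * x (eG i) := by
  rw [← eG.sum_comp]

theorem ne_comp {x : cG → ℝ} (hx : x ≠ 0) : (fun i => x (eG i)) ≠ 0 := by
  intro h
  apply hx
  funext y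
  obtain ⟨i, rfl⟩ := eG.surjective y
  exact congrFun h i

theorem result : ∃ G : Finset (Finset (Fin 9)), IsComplex G ∧ (meetGraph G).Connected ∧
    IsUnit (connMatrix G) ∧ TopMultiple (connMatrix G)⁻¹ := by
  refine ⟨cG, cG_complex, cG_connected, ?_, ?_⟩
  · exact (Matrix.isUnit_iff_isUnit_det _).mpr (Matrix.isUnit_det_of_right_inverse conn_mul)
  rw [inv_eq, TopMultiple]
  have : Nonempty cG := ⟨eG 9⟩
  refine key gG ?_ (fun x => eG (cmP (eG.symm x))) ?_ ?_ (65 / 16) ?_ ?_
    (fun x => ((cmU.getD (eG.symm x).val 0 : ℤ) : ℝ)) ?_ ?_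
  · refine Matrix.IsHermitian.ext fun x y => ?_
    simp only [gG, star_trivial]
    rw [cm_symm]
  · intro x
    simp only [Equiv.symm_apply_apply, cm_P3, Equiv.apply_symm_apply]
  · intro x y
    simp only [gG, Equiv.symm_apply_apply, cm_Pg]
  · intro x hx
    have h := pos_of_cert 16 (by norm_num) cmS1 (fun i j => by
      simp only [cmS1, cm_symm i j, eq_comm (a := i) (b := j)]) (lk cmR1) cm_cert1
      (fun i => x (eG i)) (ne_comp hx)
    rw [qf_gG, sq_gG]
    have e : ∑ i : Fin 24, ∑ j : Fin 24, (cmS1 i j : ℝ) * x (eG i) * x (eG j)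
        = 65 * (∑ i : Fin 24, x (eG i) * x (eG i))
          + 16 * ∑ i : Fin 24, ∑ j : Fin 24, (lk cmG i j : ℝ) * x (eG i) * x (eG j) := by
      rw [Finset.mul_sum, Finset.mul_sum, ← Finset.sum_add_distrib]
      refine Finset.sum_congr rfl fun i _ => ?_
      have e1 : ∀ j, (cmS1 i j : ℝ) * x (eG i) * x (eG j)
          = (if i = j then 65 * (x (eG i) * x (eG j)) else 0)
            + 16 * ((lk cmG i j : ℝ) * x (eG i) * x (eG j)) := by
        intro j
        simp only [cmS1]
        split_ifs <;> push_cast <;> ring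
      simp only [e1]
      rw [Finset.sum_add_distrib, Finset.sum_ite_eq, ← Finset.mul_sum]
      simp
    rw [e] at h
    linarith
  · intro x hx hfix
    have hfix' : ∀ i : Fin 24, x (eG (cmP i)) = x (eG i) := by
      intro i
      have := hfix (eG i)
      simpa using this
    have h := pos_of_cert 40000 (by norm_num) cmS2 (fun i j => by
      simp only [cmS2, cm_symm i j, eq_comm (a := i) (b := j)]; ring) (lk cmR2) cm_cert2
      (fun i => x (eG i)) (ne_comp hx)
    rw [qf_gG, sq_gG]
    have e : ∑ i : Fin 24, ∑ j : Fin 24, (cmS2 i j : ℝ) * x (eG i) * x (eG j)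
        = 65 * (∑ i : Fin 24, x (eG i) * x (eG i))
          - 16 * ∑ i : Fin 24, ∑ j : Fin 24, (lk cmG i j : ℝ) * x (eG i) * x (eG j)
          + 160 * ((2 * ∑ i : Fin 24, x (eG i) * x (eG i))
            - (∑ i : Fin 24, x (eG i) * x (eG (cmP i)))
            - (∑ j : Fin 24, x (eG (cmP j)) * x (eG j))) := by
      have e0 : (∑ j : Fin 24, x (eG (cmP j)) * x (eG j))
          = ∑ i : Fin 24, ∑ j : Fin 24, (if cmP j = i then x (eG i) * x (eG j) else 0) := by
        rw [Finset.sum_comm]
        refine Finset.sum_congr rfl fun j _ => ?_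
        rw [Finset.sum_ite_eq]
        simp
      rw [e0]
      simp only [Finset.mul_sum, ← Finset.sum_add_distrib, ← Finset.sum_sub_distrib]
      refine Finset.sum_congr rfl fun i _ => ?_
      have e1 : ∀ j, (cmS2 i j : ℝ) * x (eG i) * x (eG j)
          = (if i = j then (385 * (x (eG i) * x (eG j))) else 0)
            - 16 * ((lk cmG i j : ℝ) * x (eG i) * x (eG j))
            - (if cmP i = j then 160 * (x (eG i) * x (eG j)) else 0)
            - (if cmP j = i then 160 * (x (eG i) * x (eG j)) else 0) := by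
        intro j
        simp only [cmS2]
        split_ifs <;> push_cast <;> ring
      simp only [e1]
      rw [Finset.sum_sub_distrib, Finset.sum_sub_distrib, Finset.sum_sub_distrib,
        Finset.sum_ite_eq, Finset.sum_ite_eq, ← Finset.mul_sum]
      have e2 : ∑ j : Fin 24, (if cmP j = i then 160 * (x (eG i) * x (eG j)) else 0)
          = 160 * ∑ j : Fin 24, (if cmP j = i then (x (eG i) * x (eG j)) else 0) := by
        rw [Finset.mul_sum]
        refine Finset.sum_congr rfl fun j _ => ?_
        split_ifs <;> ring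
      rw [e2, Finset.mul_sum]
      simp only [Finset.mem_univ, if_true]
      ring
    rw [e] at h
    simp only [hfix'] at h
    linarith
  · intro h
    have := congrFun h (eG 0)
    simp [cmU] at this
  · rw [qf_gG, sq_gG]
    simp only [Equiv.symm_apply_apply]
    have h := cm_u
    have h2 : ((65 * ∑ i : Fin 24, (cmU.getD i.val 0) * (cmU.getD i.val 0) : ℤ) : ℝ) ≤
        ((16 * ∑ i : Fin 24, ∑ j : Fin 24, lk cmG i j * (cmU.getD i.val 0) * (cmU.getD j.val 0) : ℤ) : ℝ) := by
      exact_mod_cast h
    push_cast at h2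
    linarith

end Pool.Agent.Results.MP_5fc97f_co.TopDouble
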